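import Pool.Agent.Helper57.PL.Morrey

/-!
Extraction of the limit: packet Lim.
-/

set_option autoImplicit false

open MeasureTheory Set Filter Topology

namespace Pool.Agent.Helper57.PL

open Pool.Agent.Helper82.PL

lemma memLp4_of {f : E2 → E2} (hf : AEStronglyMeasurable f volume)
    (hi : Integrable (fun x => ‖f x‖ ^ 4)) : MemLp f 4 volume := by
  refine (integrable_norm_rpow_iff hf (p := 4) (by norm_num) (by norm_num)).1 ?_
  refine hi.congr (Eventually.of_forall fun x => ?_)
  simp only [ENNReal.toReal_ofNat]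
  norm_cast

lemma int4_of {f : E2 → E2} (hf : MemLp f 4 volume) : Integrable (fun x => ‖f x‖ ^ 4) := by
  have h := (integrable_norm_rpow_iff hf.1 (p := 4) (by norm_num) (by norm_num)).2 hf
  refine h.congr (Eventually.of_forall fun x => ?_)
  simp only [ENNReal.toReal_ofNat]
  norm_cast

lemma norm_pow4 {f : E2 → E2} (hf : MemLp f 4 volume) :
    ‖hf.toLp f‖ ^ 4 = ∫ x, ‖f x‖ ^ 4 := by
  rw [Lp.norm_toLp, hf.eLpNorm_eq_integral_rpow_norm (by norm_num) (by norm_num)]
  have h0 : 0 ≤ ∫ x, ‖f x‖ ^ 4 := integral_nonneg fun x => by positivity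
  have h1 : (∫ a, ‖f a‖ ^ (4 : ENNReal).toReal) = ∫ x, ‖f x‖ ^ 4 := by
    refine integral_congr_ae (Eventually.of_forall fun x => ?_)
    simp only [ENNReal.toReal_ofNat]
    norm_cast
  rw [h1, ENNReal.toReal_ofReal (by positivity)]
  simp only [ENNReal.toReal_ofNat]
  rw [← Real.rpow_natCast, ← Real.rpow_mul h0]
  norm_num

lemma grad_sub_ae {u v : E2 → ℝ} {K L : NNReal} (hu : LipschitzWith K u)
    (hv : LipschitzWith L v) :
    ∀ᵐ x : E2, gradient (fun y => u y - v y) x = gradient u x - gradient v x := by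
  filter_upwards [hu.ae_differentiableAt (μ := (volume : Measure E2)),
    hv.ae_differentiableAt (μ := (volume : Measure E2))] with x h1 h2
  have h3 : fderiv ℝ (fun y => u y - v y) x = fderiv ℝ u x - fderiv ℝ v x := fderiv_fun_sub h1 h2
  simp [gradient, h3]

theorem lim_ok (hM : stmtMorrey) : stmtLim := by
  obtain ⟨C, hC, hM⟩ := hM
  intro w hw hcau
  have hL : ∀ n, ∃ K : NNReal, LipschitzWith K (w n) := fun n => (hw n).1
  choose K hK using hL
  have hcs : ∀ n, HasCompactSupport (w n) := fun n => (hw n).2.1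
  have h0D : (0 : E2) ∉ D := by simp [D]
  have hw0 : ∀ n, w n 0 = 0 := by
    intro n
    by_contra hne
    exact h0D ((hw n).2.2 (subset_tsupport _ hne))
  -- the key estimate
  have hkey : ∀ n m, ∀ x, |w n x - w m x| ^ 4 ≤
      C * ‖x‖ ^ 2 * ∫ z, ‖gradient (w n) z - gradient (w m) z‖ ^ 4 := by
    intro n m x
    have h1 := hM (fun y => w n y - w m y) ⟨K n + K m, (hK n).sub (hK m)⟩
      ((hcs n).sub (hcs m)) x 0
    simp only [hw0, sub_zero] at h1
    refine h1.trans (le_of_eq ?_)
    congr 1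
    refine integral_congr_ae ?_
    filter_upwards [grad_sub_ae (hK n) (hK m)] with z hz
    rw [hz]
  -- uniform Cauchy property on balls
  have hUC : ∀ R : ℝ, 0 < R → UniformCauchySeqOn w atTop (Metric.closedBall (0 : E2) R) := by
    intro R hR
    rw [Metric.uniformCauchySeqOn_iff]
    intro ε hε
    obtain ⟨N, hN⟩ := hcau (ε ^ 4 / (C * R ^ 2)) (by positivity)
    refine ⟨N, fun m hm n hn x hx => ?_⟩
    rw [Real.dist_eq]
    have hxR : ‖x‖ ≤ R := by simpa using hx
    have h1 := hkey m n x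
    have h2 := hN m hm n hn
    set I := ∫ z, ‖gradient (w m) z - gradient (w n) z‖ ^ 4
    have hI : 0 ≤ I := integral_nonneg fun z => by positivity
    have h3 : |w m x - w n x| ^ 4 < ε ^ 4 := by
      calc |w m x - w n x| ^ 4 ≤ C * ‖x‖ ^ 2 * I := h1
        _ ≤ C * R ^ 2 * I := by
            refine mul_le_mul_of_nonneg_right ?_ hI
            exact mul_le_mul_of_nonneg_left (pow_le_pow_left₀ (norm_nonneg _) hxR 2) hC.le
        _ < C * R ^ 2 * (ε ^ 4 / (C * R ^ 2)) := by
            exact mul_lt_mul_of_pos_left h2 (by positivity)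
        _ = ε ^ 4 := by field_simp
    exact lt_of_pow_lt_pow_left₀ 4 hε.le h3
  have hpt : ∀ x, ∃ l, Tendsto (fun n => w n x) atTop (𝓝 l) := by
    intro x
    have h1 := hUC (‖x‖ + 1) (by positivity)
    have h2 : CauchySeq (fun n => w n x) := h1.cauchySeq (by simp)
    exact cauchySeq_tendsto_of_complete h2
  choose wl hwl using hpt
  have hunif : ∀ R : ℝ, 0 < R → TendstoUniformlyOn w wl atTop (Metric.closedBall (0 : E2) R) :=
    fun R hR => (hUC R hR).tendstoUniformlyOn_of_tendsto fun x _ => hwl x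
  have hwlc : Continuous wl := by
    rw [continuous_iff_continuousAt]
    intro x
    have h1 : ContinuousOn wl (Metric.closedBall (0 : E2) (‖x‖ + 1)) :=
      (hunif _ (by positivity)).continuousOn
        (Eventually.frequently (Eventually.of_forall fun n => (hK n).continuous.continuousOn))
    refine h1.continuousAt ?_
    refine Filter.mem_of_superset (Metric.ball_mem_nhds x one_pos) fun y hy => ?_
    have h2 : ‖y - x‖ < 1 := by simpa [dist_eq_norm] using hy
    have h3 : ‖y‖ ≤ ‖x‖ + ‖y - x‖ := by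
      calc ‖y‖ = ‖x + (y - x)‖ := by congr 1; abel
        _ ≤ _ := norm_add_le _ _
    simp only [Metric.mem_closedBall, dist_zero_right]
    linarith
  -- the limit of the gradients
  have hmem : ∀ n, MemLp (gradient (w n)) 4 volume := fun n =>
    memLp4_of (meas_grad (w n)).aestronglyMeasurable (int_pow (hK n) (hcs n))
  haveI : Fact ((1 : ENNReal) ≤ 4) := ⟨by norm_num⟩
  have hC2 : CauchySeq (fun n => (hmem n).toLp (gradient (w n))) := by
    rw [Metric.cauchySeq_iff]
    intro ε hε
    obtain ⟨N, hN⟩ := hcau (ε ^ 4) (by positivity)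
    refine ⟨N, fun m hm n hn => ?_⟩
    rw [dist_eq_norm, ← MemLp.toLp_sub]
    have h1 := norm_pow4 ((hmem m).sub (hmem n))
    have h2 := hN m hm n hn
    have h3 : ‖((hmem m).sub (hmem n)).toLp _‖ ^ 4 < ε ^ 4 := by
      rw [h1]; exact h2
    exact lt_of_pow_lt_pow_left₀ 4 hε.le h3
  obtain ⟨g, hg⟩ := cauchySeq_tendsto_of_complete hC2
  have hgm : MemLp g 4 volume := Lp.memLp g
  refine ⟨wl, g, hwlc, hgm.1, int4_of hgm, ?_, ?_⟩
  · intro S hS
    obtain ⟨R, hR⟩ := hS.isBounded.subset_closedBall (0 : E2)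
    refine (hunif (max R 1) (by positivity)).mono (hR.trans ?_)
    exact Metric.closedBall_subset_closedBall (le_max_left _ _)
  · have h1 : ∀ n, ‖(hmem n).toLp (gradient (w n)) - g‖ ^ 4 =
        ∫ x, ‖gradient (w n) x - g x‖ ^ 4 := by
      intro n
      have h2 : g = hgm.toLp g := (Lp.toLp_coeFn g hgm).symm
      have h3 : (hmem n).toLp (gradient (w n)) - g =
          ((hmem n).sub hgm).toLp (gradient (w n) - ⇑g) := by
        rw [MemLp.toLp_sub (hmem n) hgm]
        congr 1
      rw [h3, norm_pow4]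
      rfl
    have h2 : Tendsto (fun n => ‖(hmem n).toLp (gradient (w n)) - g‖ ^ 4) atTop (𝓝 0) := by
      have h3 : Tendsto (fun n => ‖(hmem n).toLp (gradient (w n)) - g‖) atTop (𝓝 0) :=
        tendsto_iff_norm_sub_tendsto_zero.1 hg
      have := h3.pow 4
      simpa using this
    exact h2.congr h1

end Pool.Agent.Helper57.PL
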