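import Pool.Agent.Helper82.PL.Defs

/-!
Morrey's inequality for Lipschitz functions with compact support in the plane, exponent 4.
-/

set_option autoImplicit false

open MeasureTheory Set Filter Topology

namespace Pool.Agent.Helper57.PL

open Pool.Agent.Helper82.PL

lemma norm_grad (w : E2 → ℝ) (x : E2) : ‖gradient w x‖ = ‖fderiv ℝ w x‖ := by
  simp [gradient]

lemma meas_grad (w : E2 → ℝ) : Measurable (gradient w) := by
  have h : Measurable (fderiv ℝ w) := measurable_fderiv ℝ w
  exact ((InnerProductSpace.toDual ℝ E2).symm.continuous.measurable).comp h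

lemma grad_le {K : NNReal} {w : E2 → ℝ} (h : LipschitzWith K w) (x : E2) :
    ‖gradient w x‖ ≤ K := by
  rw [norm_grad]
  exact norm_fderiv_le_of_lipschitz ℝ h

lemma grad_zero {w : E2 → ℝ} {x : E2} (h : x ∉ tsupport w) : gradient w x = 0 := by
  have h1 : fderiv ℝ w x = 0 := by
    by_contra hne
    exact h (support_fderiv_subset ℝ (f := w) hne)
  simp [gradient, h1]

lemma int_pow {K : NNReal} {w : E2 → ℝ} (h : LipschitzWith K w) (hc : HasCompactSupport w) :
    Integrable (fun z => ‖gradient w z‖ ^ 4) := by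
  have h1 : IntegrableOn (fun z => ‖gradient w z‖ ^ 4) (tsupport w) := by
    refine Measure.integrableOn_of_bounded (M := (K : ℝ) ^ 4) hc.measure_lt_top.ne ?_ ?_
    · exact ((meas_grad w).norm.pow_const 4).aestronglyMeasurable
    · refine Eventually.of_forall fun z => ?_
      rw [Real.norm_of_nonneg (by positivity)]
      exact pow_le_pow_left₀ (norm_nonneg _) (grad_le h z) 4
  refine (integrableOn_iff_integrable_of_support_subset ?_).1 h1
  intro z hz
  by_contra hne
  exact hz (by simp [grad_zero hne])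

/-- Jensen for the fourth power -/
lemma jensen4 {α : Type*} [MeasurableSpace α] (μ : Measure α) [IsFiniteMeasure μ] (g : α → ℝ)
    (h0 : ∀ x, 0 ≤ g x) (hi : Integrable g μ) (hi4 : Integrable (fun x => g x ^ 4) μ) :
    (∫ x, g x ∂μ) ^ 4 ≤ (μ.real univ) ^ 3 * ∫ x, g x ^ 4 ∂μ := by
  by_cases hμ : μ = 0
  · simp [hμ]
  haveI : NeZero μ := ⟨hμ⟩
  have hpos : 0 < μ.real univ := by
    simp only [Measure.real, ENNReal.toReal_pos_iff]
    exact ⟨pos_iff_ne_zero.2 (by simpa using hμ), measure_lt_top μ _⟩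
  have h1 := ConvexOn.map_average_le (μ := μ) (f := g) (s := Ici (0 : ℝ)) (g := fun x => x ^ 4)
    (convexOn_pow 4) (by fun_prop) isClosed_Ici (Eventually.of_forall h0) hi hi4
  simp only [average_eq, smul_eq_mul, mul_pow] at h1
  have h2 := mul_le_mul_of_nonneg_left h1 (by positivity : (0 : ℝ) ≤ (μ.real univ) ^ 4)
  calc (∫ x, g x ∂μ) ^ 4 = (μ.real univ) ^ 4 * (((μ.real univ)⁻¹) ^ 4 * (∫ x, g x ∂μ) ^ 4) := by
        field_simp
    _ ≤ (μ.real univ) ^ 4 * ((μ.real univ)⁻¹ * ∫ x, g x ^ 4 ∂μ) := h2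
    _ = (μ.real univ) ^ 3 * ∫ x, g x ^ 4 ∂μ := by
        field_simp

/-- change of variables -/
lemma cov (f : E2 → ℝ) (x : E2) (s : ℝ) :
    ∫ z, f (x + s • (z - x)) = |(s ^ 2)⁻¹| * ∫ z, f z := by
  have h1 := Measure.integral_comp_smul (volume : Measure E2) (fun u => f (x + (u - s • x))) s
  have h2 : (fun z : E2 => f (x + s • (z - x))) = fun z => f (x + (s • z - s • x)) := by
    funext z; rw [smul_sub]
  rw [h2, h1]
  have h3 : Module.finrank ℝ E2 = 2 := by simp
  rw [h3, smul_eq_mul]
  congr 1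
  have h4 : (fun u : E2 => f (x + (u - s • x))) = fun u => f (u + (x - s • x)) := by
    funext u; congr 1; abel
  rw [h4, integral_add_right_eq_self (fun u => f u)]

lemma int_cov {f : E2 → ℝ} (hf : Integrable f) (x : E2) {s : ℝ} (hs : s ≠ 0) :
    Integrable (fun z => f (x + s • (z - x))) := by
  have h1 : Integrable (fun u => f (u + (x - s • x))) := hf.comp_add_right _
  have h2 := h1.comp_smul hs
  refine h2.congr (Eventually.of_forall fun z => ?_)
  simp only [smul_sub]
  congr 1; abel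

/-- differentiability at almost every image point -/
lemma ae_diff {K : NNReal} {w : E2 → ℝ} (h : LipschitzWith K w) (x : E2) {s : ℝ} (hs : s ≠ 0) :
    ∀ᵐ z : E2, DifferentiableAt ℝ w (x + s • (z - x)) := by
  have h0 := h.ae_differentiableAt (μ := (volume : Measure E2))
  have hq : Measure.QuasiMeasurePreserving (fun z : E2 => x + s • (z - x)) volume volume := by
    refine ⟨by fun_prop, ?_⟩
    have e1 : (fun z : E2 => x + s • (z - x)) = (fun u => u + (x - s • x)) ∘ fun z => s • z := by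
      funext z; simp only [Function.comp, smul_sub]; abel
    rw [e1, ← Measure.map_map (by fun_prop) (by fun_prop)]
    rw [Measure.map_addHaar_smul _ hs]
    have h2 : Measure.map (fun u : E2 => u + (x - s • x)) (volume : Measure E2) = volume :=
      (measurePreserving_add_right volume (x - s • x)).map_eq
    rw [Measure.map_smul, h2]
    exact Measure.smul_absolutelyContinuous
  exact hq.ae h0

lemma key {K : NNReal} {w : E2 → ℝ} (hL : LipschitzWith K w) (hc : HasCompactSupport w)
    (m x : E2) (r : ℝ) (hr : 0 < r) (hx : ∀ z ∈ Metric.ball m r, ‖z - x‖ ≤ 2 * r) :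
    |(∫ z in Metric.ball m r, w z) - (volume.real (Metric.ball m r)) * w x| ^ 4 ≤
      256 * r ^ 4 * (volume.real (Metric.ball m r)) ^ 3 * ∫ z, ‖gradient w z‖ ^ 4 := by
  set B := Metric.ball m r with hB
  set V := volume.real B with hV
  set I := ∫ z, ‖gradient w z‖ ^ 4 with hI
  have hBfin : volume B < ⊤ := measure_ball_lt_top
  haveI : IsFiniteMeasure (volume.restrict B) := ⟨by simpa using hBfin⟩
  have hwc : Continuous w := hL.continuous
  set Ψ : ℝ → ℝ := fun t => ∫ z in B, w (x + t ^ 2 • (z - x)) with hΨ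
  set Ψ' : ℝ → ℝ := fun t => ∫ z in B, (fderiv ℝ w (x + t ^ 2 • (z - x))) ((2 * t) • (z - x))
    with hΨ'
  have hzB : ∀ᵐ z ∂(volume.restrict B), z ∈ B := ae_restrict_mem measurableSet_ball
  -- the Lipschitz estimate
  have hlip : ∀ t ∈ Icc (0 : ℝ) 1, ∀ t' ∈ Icc (0 : ℝ) 1, ∀ z ∈ B,
      |w (x + t ^ 2 • (z - x)) - w (x + t' ^ 2 • (z - x))| ≤ (K * (4 * r)) * |t - t'| := by
    intro t ht t' ht' z hz
    have h1 := hL.dist_le_mul (x + t ^ 2 • (z - x)) (x + t' ^ 2 • (z - x))
    rw [Real.dist_eq, dist_eq_norm] at h1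
    have h2 : x + t ^ 2 • (z - x) - (x + t' ^ 2 • (z - x)) = (t ^ 2 - t' ^ 2) • (z - x) := by
      rw [sub_smul]; abel
    rw [h2, norm_smul, Real.norm_eq_abs] at h1
    have h3 : |t ^ 2 - t' ^ 2| ≤ 2 * |t - t'| := by
      have : t ^ 2 - t' ^ 2 = (t + t') * (t - t') := by ring
      rw [this, abs_mul, abs_of_nonneg (by linarith [ht.1, ht'.1])]
      exact mul_le_mul_of_nonneg_right (by linarith [ht.2, ht'.2]) (abs_nonneg _)
    calc _ ≤ _ := h1
      _ ≤ K * ((2 * |t - t'|) * (2 * r)) := by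
          refine mul_le_mul_of_nonneg_left ?_ K.2
          exact mul_le_mul h3 (hx z hz) (norm_nonneg _) (by positivity)
      _ = _ := by ring
  have hint : ∀ t : ℝ, Integrable (fun z => w (x + t ^ 2 • (z - x))) (volume.restrict B) := by
    intro t
    have hcont : Continuous (fun z : E2 => w (x + t ^ 2 • (z - x))) := by fun_prop
    have h1 : IntegrableOn (fun z : E2 => w (x + t ^ 2 • (z - x))) (Metric.closedBall m r) :=
      hcont.continuousOn.integrableOn_compact (isCompact_closedBall m r)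
    exact h1.mono_set Metric.ball_subset_closedBall
  have hder : ∀ t ∈ Ioo (0 : ℝ) 1, HasDerivAt Ψ (Ψ' t) t := by
    intro t ht
    have hne : t ^ 2 ≠ 0 := pow_ne_zero 2 ht.1.ne'
    refine (hasDerivAt_integral_of_dominated_loc_of_lip (μ := volume.restrict B)
      (F := fun t z => w (x + t ^ 2 • (z - x)))
      (F' := fun z => (fderiv ℝ w (x + t ^ 2 • (z - x))) ((2 * t) • (z - x)))
      (s := Ioo (0 : ℝ) 1) (bound := fun _ => (K * (4 * r))) (Ioo_mem_nhds ht.1 ht.2)
      ?_ (hint t) ?_ ?_ ?_ ?_).2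
    · exact Eventually.of_forall fun s => (hint s).aestronglyMeasurable
    · have h1 : Measurable (fun z : E2 => fderiv ℝ w (x + t ^ 2 • (z - x))) :=
        (measurable_fderiv ℝ w).comp (by fun_prop)
      have h2 : Measurable (fun z : E2 => (2 * t) • (z - x)) := by fun_prop
      exact (Measurable.aestronglyMeasurable (by
        exact (isBoundedBilinearMap_apply.continuous.measurable).comp (h1.prodMk h2)))
    · filter_upwards [hzB] with z hz
      refine LipschitzOnWith.of_dist_le_mul fun a ha b hb => ?_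
      rw [Real.dist_eq, Real.dist_eq]
      have := hlip a ⟨ha.1.le, ha.2.le⟩ b ⟨hb.1.le, hb.2.le⟩ z hz
      refine this.trans (le_of_eq ?_)
      congr 1
      rw [Real.coe_nnabs, abs_of_nonneg (by positivity)]
    · exact integrable_const _
    · filter_upwards [ae_restrict_of_ae (ae_diff hL x hne)] with z hz
      have h1 : HasDerivAt (fun t : ℝ => x + t ^ 2 • (z - x)) ((2 * t) • (z - x)) t := by
        have h2 : HasDerivAt (fun t : ℝ => t ^ 2) (2 * t) t := by
          simpa using hasDerivAt_pow 2 t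
        exact (h2.smul_const (z - x)).const_add x
      exact hz.hasFDerivAt.comp_hasDerivAt t h1
  have hcont : ContinuousOn Ψ (Icc 0 1) := by
    have : LipschitzOnWith (Real.toNNReal ((K * (4 * r)) * V)) Ψ (Icc 0 1) := by
      refine LipschitzOnWith.of_dist_le_mul fun a ha b hb => ?_
      rw [Real.dist_eq, Real.dist_eq, Real.coe_toNNReal _ (by positivity)]
      rw [hΨ]
      simp only
      rw [← integral_sub (hint a) (hint b), ← Real.norm_eq_abs]
      refine (norm_setIntegral_le_of_norm_le_const (C := (K * (4 * r)) * |a - b|) hBfin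
        (fun z hz => by
          rw [Real.norm_eq_abs]
          exact hlip a ha b hb z hz)).trans (le_of_eq ?_)
      ring
    exact this.continuousOn
  obtain ⟨c, hc01, hcc⟩ := exists_hasDerivAt_eq_slope Ψ Ψ' one_pos hcont hder
  have hΨ1 : Ψ 1 = ∫ z in B, w z := by
    simp only [hΨ]
    refine integral_congr_ae (Eventually.of_forall fun z => ?_)
    simp
  have hΨ0 : Ψ 0 = V * w x := by
    simp [hΨ, hV, Measure.real]
  have hne : c ^ 2 ≠ 0 := pow_ne_zero 2 hc01.1.ne'
  have heq : (∫ z in B, w z) - V * w x = Ψ' c := by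
    rw [hcc, hΨ1, hΨ0]; ring
  rw [heq]
  -- bound of the derivative
  have hg4 : Integrable (fun z => ‖gradient w (x + c ^ 2 • (z - x))‖ ^ 4) :=
    int_cov (int_pow hL hc) x hne
  have hgm : Measurable (fun z => ‖gradient w (x + c ^ 2 • (z - x))‖) :=
    ((meas_grad w).comp (by fun_prop)).norm
  have hg1 : Integrable (fun z => ‖gradient w (x + c ^ 2 • (z - x))‖) (volume.restrict B) := by
    refine Integrable.mono' (integrable_const (K : ℝ)) hgm.aestronglyMeasurable ?_
    refine Eventually.of_forall fun z => ?_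
    rw [norm_norm]
    exact grad_le hL _
  have hb : |Ψ' c| ≤ (4 * c * r) * ∫ z in B, ‖gradient w (x + c ^ 2 • (z - x))‖ := by
    rw [← Real.norm_eq_abs, ← integral_const_mul]
    refine norm_integral_le_of_norm_le (hg1.const_mul _) ?_
    filter_upwards [hzB] with z hz
    calc ‖(fderiv ℝ w (x + c ^ 2 • (z - x))) ((2 * c) • (z - x))‖
        ≤ ‖fderiv ℝ w (x + c ^ 2 • (z - x))‖ * ‖(2 * c) • (z - x)‖ :=
          ContinuousLinearMap.le_opNorm _ _
      _ = ‖gradient w (x + c ^ 2 • (z - x))‖ * ((2 * c) * ‖z - x‖) := by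
          rw [norm_grad, norm_smul, Real.norm_of_nonneg (by linarith [hc01.1])]
      _ ≤ ‖gradient w (x + c ^ 2 • (z - x))‖ * ((2 * c) * (2 * r)) := by
          refine mul_le_mul_of_nonneg_left ?_ (norm_nonneg _)
          exact mul_le_mul_of_nonneg_left (hx z hz) (by linarith [hc01.1])
      _ = _ := by ring
  have hj := jensen4 (volume.restrict B) (fun z => ‖gradient w (x + c ^ 2 • (z - x))‖)
    (fun z => norm_nonneg _) hg1 hg4.restrict
  have hV' : (volume.restrict B).real univ = V := by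
    simp [hV, Measure.real]
  rw [hV'] at hj
  have hcov : ∫ z in B, ‖gradient w (x + c ^ 2 • (z - x))‖ ^ 4 ≤ (c ^ 4)⁻¹ * I := by
    refine (setIntegral_le_integral hg4 (Eventually.of_forall fun z => by positivity)).trans ?_
    rw [cov (fun z => ‖gradient w z‖ ^ 4) x (c ^ 2), abs_of_nonneg (by positivity)]
    refine le_of_eq ?_
    rw [← pow_mul]
  have hV0 : 0 ≤ V := measureReal_nonneg
  calc |Ψ' c| ^ 4 ≤ ((4 * c * r) * ∫ z in B, ‖gradient w (x + c ^ 2 • (z - x))‖) ^ 4 :=
        pow_le_pow_left₀ (abs_nonneg _) hb 4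
    _ = (4 * c * r) ^ 4 * (∫ z in B, ‖gradient w (x + c ^ 2 • (z - x))‖) ^ 4 := by ring
    _ ≤ (4 * c * r) ^ 4 * (V ^ 3 * ((c ^ 4)⁻¹ * I)) := by
        refine mul_le_mul_of_nonneg_left ?_ (by positivity)
        exact hj.trans (mul_le_mul_of_nonneg_left hcov (by positivity))
    _ = 256 * r ^ 4 * V ^ 3 * I := by
        have : c ≠ 0 := hc01.1.ne'
        field_simp
        ring

theorem morrey : stmtMorrey := by
  refine ⟨4096 / Real.pi, by positivity, fun w hw hc x y => ?_⟩
  obtain ⟨K, hL⟩ := hw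
  have hI : 0 ≤ ∫ z, ‖gradient w z‖ ^ 4 := integral_nonneg fun z => by positivity
  by_cases hxy : x = y
  · subst hxy
    simp
  set r := ‖x - y‖ with hr
  have hrpos : 0 < r := norm_pos_iff.2 (sub_ne_zero.2 hxy)
  set m : E2 := (2 : ℝ)⁻¹ • (x + y) with hm
  have hmx : ‖m - x‖ ≤ r := by
    have : m - x = (-(2 : ℝ)⁻¹) • (x - y) := by
      rw [hm]; module
    rw [this, norm_smul]
    norm_num
    linarith
  have hmy : ‖m - y‖ ≤ r := by
    have : m - y = ((2 : ℝ)⁻¹) • (x - y) := by
      rw [hm]; module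
    rw [this, norm_smul]
    norm_num
    linarith
  have h1 := key hL hc m x r hrpos (fun z hz => by
    have h2 : ‖z - m‖ < r := by simpa [dist_eq_norm] using hz
    calc ‖z - x‖ = ‖(z - m) + (m - x)‖ := by congr 1; abel
      _ ≤ ‖z - m‖ + ‖m - x‖ := norm_add_le _ _
      _ ≤ 2 * r := by linarith)
  have h2 := key hL hc m y r hrpos (fun z hz => by
    have h2 : ‖z - m‖ < r := by simpa [dist_eq_norm] using hz
    calc ‖z - y‖ = ‖(z - m) + (m - y)‖ := by congr 1; abel
      _ ≤ ‖z - m‖ + ‖m - y‖ := norm_add_le _ _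
      _ ≤ 2 * r := by linarith)
  set V := volume.real (Metric.ball m r) with hV
  have hVv : V = Real.pi * r ^ 2 := by
    rw [hV, Measure.real, EuclideanSpace.volume_ball_fin_two]
    simp [ENNReal.toReal_mul, hrpos.le, mul_comm, Real.pi_nonneg]
  set I := ∫ z, ‖gradient w z‖ ^ 4 with hIdef
  set A := ∫ z in Metric.ball m r, w z with hA
  have hVpos : 0 < V := by rw [hVv]; positivity
  have h3 : |V * (w x - w y)| ≤ |A - V * w x| + |A - V * w y| := by
    have : V * (w x - w y) = -(A - V * w x) + (A - V * w y) := by ring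
    rw [this]
    refine (abs_add_le _ _).trans ?_
    rw [abs_neg]
  have h4 : |V * (w x - w y)| ^ 4 ≤ 4096 * r ^ 4 * V ^ 3 * I := by
    calc |V * (w x - w y)| ^ 4 ≤ (|A - V * w x| + |A - V * w y|) ^ 4 :=
          pow_le_pow_left₀ (abs_nonneg _) h3 4
      _ ≤ 8 * (|A - V * w x| ^ 4 + |A - V * w y| ^ 4) := by
          generalize |A - V * w x| = a
          generalize |A - V * w y| = b
          nlinarith [sq_nonneg (a - b), sq_nonneg (a + b), sq_nonneg (a ^ 2 - b ^ 2),
            mul_nonneg (sq_nonneg (a - b)) (sq_nonneg (a + b)),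
            mul_nonneg (sq_nonneg (a - b)) (sq_nonneg (a - b)), sq_nonneg (a * b),
            mul_nonneg (sq_nonneg (a - b)) (sq_nonneg a),
            mul_nonneg (sq_nonneg (a - b)) (sq_nonneg b)]
      _ ≤ 8 * (256 * r ^ 4 * V ^ 3 * I + 256 * r ^ 4 * V ^ 3 * I) := by
          linarith
      _ = _ := by ring
  rw [abs_mul, abs_of_pos hVpos, mul_pow] at h4
  have h5 : V * |w x - w y| ^ 4 ≤ 4096 * r ^ 4 * I := by
    have hV3 : 0 < V ^ 3 := by positivity
    refine le_of_mul_le_mul_left ?_ hV3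
    calc V ^ 3 * (V * |w x - w y| ^ 4) = V ^ 4 * |w x - w y| ^ 4 := by ring
      _ ≤ 4096 * r ^ 4 * V ^ 3 * I := h4
      _ = _ := by ring
  rw [hVv] at h5
  have hpi := Real.pi_pos
  have h6 : (Real.pi * r ^ 2) * |w x - w y| ^ 4 ≤
      (Real.pi * r ^ 2) * (4096 / Real.pi * r ^ 2 * I) := by
    refine h5.trans (le_of_eq ?_)
    field_simp
  exact le_of_mul_le_mul_left h6 (by positivity)

end Pool.Agent.Helper57.PL
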